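import Pool.Agent.Lib.MP_4847d9_lc.Final

namespace Pool.Agent.Results.MP_4847d9_lc.Consistent

open Pool.Agent.Shared.Forcing Pool.Agent.Lib.MP_4847d9_lc

/-- For every `n ≥ 2` there is a model of ZFC + GCH in which `KH(ℵ_n, ℵ_i)` holds for every `i < n`
and `KH(ℵ_n, < ℵ_n)` fails. -/
theorem result (n : ℕ) (hn : 2 ≤ n) :
    ∃ (M : Type 4) (E : M → M → Prop), ModelZFC E ∧ GCH E ∧ ∃ a : ℕ → M,
      (∀ i ≤ n, IsAleph E i (a i)) ∧ (∀ i < n, KH E (a n) (a i)) ∧ ¬ KHlt E (a n) (a n) :=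
  model n hn

end Pool.Agent.Results.MP_4847d9_lc.Consistent
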